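import Mathlib
import Pool.Agent.MP_ed46bc_co.LD.Fin

/-!
# The minimum number of long even sums of a set lying in the set, from the divisors of the order
-/

namespace Pool.Agent.Results.MP_ed46bc_co.LongEvenSums

universe u

/-- `P(G,k,A)`: the number of ordered `k`-tuples of elements of `A` whose sum lies in `A`. -/
def P {G : Type u} [AddCommGroup G] [Fintype G] [DecidableEq G] (k : ℕ) (A : Finset G) : ℕ :=
  (Finset.univ.filter fun a : Fin k → G => (∀ i, a i ∈ A) ∧ ∑ i, a i ∈ A).card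

/-- `P(G,k,m)`: the minimum of `P(G,k,A)` over the subsets `A` of size `m`. -/
noncomputable def Pmin (G : Type u) [AddCommGroup G] [Fintype G] [DecidableEq G]
    (k m : ℕ) : ℕ :=
  sInf {p : ℕ | ∃ A : Finset G, A.card = m ∧ P k A = p}

/-- `φ(M) = (b^(k+1) + (M - b)^(k+1)) / M`. -/
noncomputable def phi (k b M : ℕ) : ℝ := ((b : ℝ) ^ (k + 1) + ((M : ℝ) - b) ^ (k + 1)) / M

theorem result (G : Type u) [AddCommGroup G] [Fintype G] [DecidableEq G] (k m b M q : ℕ)
    (hk : Even k) (hk0 : 10000 ≤ k) (hmb : m + b = Fintype.card G)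
    (hM : M ∣ Fintype.card G) (hbM : b ≤ M) (q1 : q ∣ M) (q2 : q ∣ AddMonoid.exponent G)
    (q3 : ¬ q ∣ k - 1) (q4 : q * (M - b) ≤ M)
    (h1 : ∀ D : ℕ, D ∣ Fintype.card G → b ≤ D → D < M → phi k b D ≤ phi k b M)
    (h2 : ∀ D : ℕ, D ∣ Fintype.card G → D < b →
      (1 - 130 * Real.log (100 * k) / k) * b < D → phi k b (2 * D) ≤ phi k b M) :
    (Pmin G k m : ℝ) =
      ((m : ℝ) ^ (k + 1) + (b : ℝ) ^ (k + 1)) / Fintype.card G - phi k b M :=
  Pool.Agent.MP_ed46bc_co.LD.final k m b M q hk hk0 hmb hM hbM q1 q2 q3 q4 h1 h2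

end Pool.Agent.Results.MP_ed46bc_co.LongEvenSums
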